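import Mathlib

set_option autoImplicit false

open Set Cardinal Ordinal Topology Filter

namespace Pool.Agent.Lib.Helper86

universe u v

/-- `ω₂` -/
noncomputable abbrev om2 : Ordinal.{v} := (Cardinal.aleph.{v} 2).ord

theorem isRegular_aleph_two : (Cardinal.aleph.{v} 2).IsRegular := by
  have h := Cardinal.isRegular_aleph_add_one.{v} 1
  rwa [one_add_one_eq_two] at h

theorem aleph_one_lt_two : Cardinal.aleph.{v} 1 < Cardinal.aleph.{v} 2 := by
  rw [Cardinal.aleph_lt_aleph]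
  exact one_lt_two

theorem lt_aleph_two {c : Cardinal.{v}} (h : c ≤ Cardinal.aleph 1) : c < Cardinal.aleph.{v} 2 :=
  h.trans_lt aleph_one_lt_two

theorem le_aleph_one {c : Cardinal.{v}} (h : c < Cardinal.aleph.{v} 2) : c ≤ Cardinal.aleph 1 := by
  have h2 : Cardinal.aleph.{v} 2 = Order.succ (Cardinal.aleph 1) := by
    rw [← one_add_one_eq_two, Cardinal.succ_aleph]
  rw [h2] at h
  exact Order.lt_succ_iff.mp h

theorem sup_lt {ι : Type v} (hι : #ι ≤ Cardinal.aleph 1) (f : ι → Ordinal.{v})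
    (hf : ∀ i, f i < om2.{v}) : ∃ b < om2.{v}, ∀ i, f i ≤ b := by
  refine ⟨iSup f, ?_, fun i => Ordinal.le_iSup f i⟩
  refine Ordinal.iSup_lt_of_lt_cof ?_ hf
  rw [isRegular_aleph_two.cof_ord]
  exact lt_aleph_two hι

/-- A continuous real function on `[0, ω₂]` is constant on a tail. -/
theorem tail_const (g : Set.Iic om2.{v} → ℝ) (hg : Continuous g) :
    ∃ b < om2.{v}, ∀ β : Set.Iic om2.{v}, b < β.1 → g β = g ⟨om2, Set.mem_Iic.mpr le_rfl⟩ := by
  have hn : ∀ n : ℕ, ∃ b < om2.{v}, ∀ β : Set.Iic om2.{v}, b < β.1 →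
      |g β - g ⟨om2, Set.mem_Iic.mpr le_rfl⟩| < 1 / ((n : ℝ) + 1) := by
    intro n
    have hopen : {β | |g β - g ⟨om2, Set.mem_Iic.mpr le_rfl⟩| < 1 / ((n : ℝ) + 1)} ∈ 𝓝 (⟨om2, Set.mem_Iic.mpr le_rfl⟩ : Set.Iic om2.{v}) := by
      apply IsOpen.mem_nhds
      · exact isOpen_lt ((hg.sub continuous_const).abs) continuous_const
      · have h1 : (0 : ℝ) < 1 / ((n : ℝ) + 1) := by positivity
        simpa using h1
    have h0 : (0 : Ordinal.{v}) < om2.{v} := isRegular_aleph_two.ord_pos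
    obtain ⟨l, hl, hsub⟩ := exists_Ioc_subset_of_mem_nhds hopen ⟨⟨0, h0.le⟩, h0⟩
    exact ⟨l.1, hl, fun β hβ => hsub ⟨hβ, β.2⟩⟩
  choose b hb hb' using hn
  obtain ⟨c, hc, hc'⟩ := sup_lt.{v} (ι := ULift.{v} ℕ) (by simp) (fun n => b n.down) (fun n => hb n.down)
  refine ⟨c, hc, fun β hβ => ?_⟩
  have h1 : ∀ n : ℕ, |g β - g ⟨om2, Set.mem_Iic.mpr le_rfl⟩| < 1 / ((n : ℝ) + 1) :=
    fun n => hb' n β ((hc' ⟨n⟩).trans_lt hβ)
  have h2 : |g β - g ⟨om2, Set.mem_Iic.mpr le_rfl⟩| ≤ 0 := by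
    refine le_of_forall_pos_le_add (fun ε hε => ?_)
    obtain ⟨n, hn⟩ := exists_nat_one_div_lt hε
    linarith [h1 n]
  have h3 := abs_nonpos_iff.mp h2
  linarith

/-- `[0, ω₂]` does not embed in a product of lines so that all supports have size `≤ ℵ₁`. -/
theorem exists_big_support {Γ : Type v} (F : Set.Iic om2.{v} → Γ → ℝ) (hF : Continuous F)
    (hinj : Function.Injective F) :
    ∃ α, Cardinal.aleph 1 < #{γ : Γ | F α γ ≠ 0} := by
  by_contra hcon
  push Not at hcon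
  let top : Set.Iic om2.{v} := ⟨om2, Set.mem_Iic.mpr le_rfl⟩
  have htail := fun γ : Γ => tail_const (fun β => F β γ) ((continuous_apply γ).comp hF)
  choose b hb hb' using htail
  -- supports, indexed by all ordinals
  let A : Ordinal.{v} → Set Γ := fun β => if h : β ≤ om2.{v} then {γ : Γ | F ⟨β, h⟩ γ ≠ 0} else ∅
  have hA : ∀ β, #(A β) ≤ Cardinal.aleph 1 := by
    intro β
    by_cases h : β ≤ om2.{v}
    · simp only [A, dif_pos h]; exact hcon ⟨β, h⟩
    · simp only [A, dif_neg h]; simp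
  let S : Ordinal.{v} → Set Γ := fun α => A om2 ∪ ⋃ β < Order.succ α, A β
  have hS : ∀ α < om2.{v}, #(S α) ≤ Cardinal.aleph 1 := by
    intro α hα
    refine (Cardinal.mk_union_le _ _).trans ?_
    have h1 : #(⋃ β < Order.succ α, A β : Set Γ) ≤ Cardinal.aleph 1 := by
      refine Cardinal.mk_biUnion_le_of_le ?_ (Cardinal.aleph0_le_aleph 1) A (fun j _ => hA j)
      apply le_aleph_one
      have h2 : Order.succ α < om2.{v} := by
        have := Cardinal.isSuccLimit_ord (isRegular_aleph_two.{v}.aleph0_le)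
        exact this.succ_lt hα
      exact Cardinal.lt_ord.mp h2
    exact (Cardinal.add_le_max _ _).trans
      (max_le (max_le (hA _) h1) (Cardinal.aleph0_le_aleph 1))
  have hstep : ∀ α : Set.Iio om2.{v}, ∃ α' : Set.Iio om2.{v}, α < α' ∧ ∀ γ ∈ S α.1, b γ < α'.1 := by
    rintro ⟨α, hα⟩
    obtain ⟨c, hc, hc'⟩ := sup_lt.{v} (ι := S α) (hS α hα) (fun γ => b γ.1) (fun γ => hb γ.1)
    have hlim := Cardinal.isSuccLimit_ord (isRegular_aleph_two.{v}.aleph0_le)
    refine ⟨⟨Order.succ (max α c), hlim.succ_lt (max_lt hα hc)⟩, ?_, fun γ hγ => ?_⟩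
    · exact Subtype.mk_lt_mk.mpr ((le_max_left α c).trans_lt (Order.lt_succ _))
    · exact ((hc' ⟨γ, hγ⟩).trans (le_max_right α c)).trans_lt (Order.lt_succ _)
  choose nx hnx1 hnx2 using hstep
  have h0 : (0 : Ordinal.{v}) < om2.{v} := isRegular_aleph_two.ord_pos
  let a : ℕ → Set.Iio om2.{v} := fun n => nx^[n] ⟨0, h0⟩
  have ha : ∀ n, a (n + 1) = nx (a n) := fun n => Function.iterate_succ_apply' nx n _
  obtain ⟨c, hc, hc'⟩ := sup_lt.{v} (ι := ULift.{v} ℕ) (by simp) (fun n => (a n.down).1) (fun n => (a n.down).2)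
  -- the supremum
  let s : Ordinal.{v} := ⨆ n : ℕ, (a n).1
  have hbdd : BddAbove (Set.range (fun n : ℕ => (a n).1)) := ⟨c, by rintro _ ⟨n, rfl⟩; exact hc' ⟨n⟩⟩
  have hs : s < om2.{v} := (ciSup_le (fun n => hc' ⟨n⟩)).trans_lt hc
  have has : ∀ n, (a n).1 ≤ s := fun n => le_ciSup hbdd n
  have hmono : Monotone (fun n : ℕ => (a n).1) := by
    refine monotone_nat_of_le_succ (fun n => ?_)
    have := hnx1 (a n)
    rw [← ha] at this
    exact this.le
  let a' : ℕ → Set.Iic om2.{v} := fun n => ⟨(a n).1, Set.mem_Iic.mpr (le_of_lt (a n).2)⟩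
  let s' : Set.Iic om2.{v} := ⟨s, Set.mem_Iic.mpr hs.le⟩
  have htend : Tendsto a' atTop (𝓝 s') := by
    rw [tendsto_subtype_rng]
    exact tendsto_atTop_ciSup hmono hbdd
  have hlt : ∀ n, ∀ γ ∈ S (a n).1, b γ < s := by
    intro n γ hγ
    have h1 := hnx2 (a n) γ hγ
    rw [← ha] at h1
    exact h1.trans_le (has (n + 1))
  have heq : F s' = F top := by
    funext γ
    by_cases hγ : ∃ n, γ ∈ S (a n).1
    · obtain ⟨n, hn⟩ := hγ
      exact hb' γ s' (hlt n γ hn)
    · push Not at hγ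
      have h1 : ∀ n, F (a' n) γ = 0 := by
        intro n
        by_contra hne
        refine hγ n (Or.inr ?_)
        simp only [Set.mem_iUnion]
        refine ⟨(a n).1, Order.lt_succ _, ?_⟩
        have hle : (a n).1 ≤ om2.{v} := le_of_lt (a n).2
        simp only [A, dif_pos hle]
        exact hne
      have h2 : F top γ = 0 := by
        by_contra hne
        refine hγ 0 (Or.inl ?_)
        simp only [A, dif_pos (le_refl om2.{v})]
        exact hne
      have h3 : Tendsto (fun n => F (a' n) γ) atTop (𝓝 (F s' γ)) :=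
        (((continuous_apply γ).comp hF).tendsto s').comp htend
      have h4 : Tendsto (fun n => F (a' n) γ) atTop (𝓝 0) := by
        simp only [h1]
        exact tendsto_const_nhds
      rw [tendsto_nhds_unique h3 h4, h2]
  have h5 := hinj heq
  have h6 : s = om2.{v} := congrArg Subtype.val h5
  exact absurd h6 hs.ne

end Pool.Agent.Lib.Helper86
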