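import Mathlib

set_option autoImplicit false

open Set Topology

namespace Pool.Agent.Lib.Helper86

universe u

/-- `Sc o x`: the point `x` has scattered rank at most `o`. -/
inductive Sc {X : Type u} [TopologicalSpace X] : Ordinal.{u} → X → Prop
  | mk (o : Ordinal.{u}) (x : X) (U : Set X) (hU : IsOpen U) (hx : x ∈ U) (r : X → Ordinal.{u})
      (hlt : ∀ y ∈ U, y ≠ x → r y < o) (h : ∀ y ∈ U, y ≠ x → Sc (r y) y) : Sc o x

/-- A scattered space carries a rank function to the ordinals with a neighbourhood assignment. -/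
theorem exists_rank {X : Type u} [TopologicalSpace X]
    (hs : ∀ A : Set X, A.Nonempty → ∃ x ∈ A, ∃ U : Set X, IsOpen U ∧ U ∩ A = {x}) :
    ∃ (rk : X → Ordinal.{u}) (U : X → Set X), (∀ x, IsOpen (U x)) ∧ (∀ x, x ∈ U x) ∧
      ∀ x y, y ∈ U x → y ≠ x → rk y < rk x := by
  classical
  have hall : ∀ x : X, ∃ o : Ordinal.{u}, Sc o x := by
    by_contra hcon
    push Not at hcon
    obtain ⟨x₀, hx₀⟩ := hcon
    obtain ⟨x, hx, U, hU, hUA⟩ := hs {x | ∀ o : Ordinal.{u}, ¬ Sc o x} ⟨x₀, hx₀⟩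
    have hxU : x ∈ U := by
      have : x ∈ U ∩ {x | ∀ o : Ordinal.{u}, ¬ Sc o x} := by rw [hUA]; rfl
      exact this.1
    have hy : ∀ y : X, ∃ o : Ordinal.{u}, y ∈ U → y ≠ x → Sc o y := by
      intro y
      by_contra hc
      push Not at hc
      have h1 : y ∈ U := (hc 0).1
      have h2 : y ≠ x := (hc 0).2.1
      have h3 : y ∈ U ∩ {x | ∀ o : Ordinal.{u}, ¬ Sc o x} := ⟨h1, fun o => (hc o).2.2⟩
      rw [hUA] at h3
      exact h2 h3
    choose r hr using hy
    refine hx (Order.succ (⨆ y, r y)) (Sc.mk _ x U hU hxU r (fun y _ _ => ?_) hr)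
    exact Order.lt_succ_iff.mpr (Ordinal.le_iSup r y)
  let rk : X → Ordinal.{u} := fun x => sInf {o | Sc o x}
  have hrk : ∀ x, Sc (rk x) x := fun x => csInf_mem (hall x)
  have hle : ∀ x o, Sc o x → rk x ≤ o := fun x o h => csInf_le' h
  have key : ∀ x : X, ∃ U : Set X, IsOpen U ∧ x ∈ U ∧ ∀ y ∈ U, y ≠ x → rk y < rk x := by
    intro x
    rcases hrk x with ⟨_, _, U, hU, hx, r, hlt, h⟩
    exact ⟨U, hU, hx, fun y hy hne => (hle y (r y) (h y hy hne)).trans_lt (hlt y hy hne)⟩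
  choose U h1 h2 h3 using key
  exact ⟨rk, U, h1, h2, fun x y hy hne => h3 x y hy hne⟩

end Pool.Agent.Lib.Helper86
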