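import Mathlib

set_option autoImplicit false

open Set Cardinal Ordinal Topology

namespace Pool.Agent.Lib.Helper86

universe u v

/-- abbreviation for the well-ordered type of order type omega_1 -/
abbrev W : Type v := (Cardinal.aleph 1 : Cardinal.{v}).ord.ToType

theorem W_card : #(W.{v}) = Cardinal.aleph 1 := by simp [W]

theorem W_Iio_countable (w : W.{v}) : (Set.Iio w).Countable := by
  rw [← Cardinal.le_aleph0_iff_set_countable]
  have h := Cardinal.mk_Iio_lt (α := W.{v}) w (by simp [W])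
  rw [W_card] at h
  exact Cardinal.lt_aleph_one_iff.mp h

theorem W_Iic_countable (w : W.{v}) : (Set.Iic w).Countable := by
  rw [← Set.Iio_insert]
  exact (W_Iio_countable w).insert w

theorem W_bounded (S : Set W.{v}) (hS : S.Countable) : ∃ b : W.{v}, ∀ x ∈ S, x < b := by
  by_contra hcon
  push Not at hcon
  have huniv : (Set.univ : Set W.{v}) ⊆ ⋃ x ∈ S, Set.Iic x := by
    intro b _
    obtain ⟨x, hxS, hbx⟩ := hcon b
    simp only [Set.mem_iUnion]
    exact ⟨x, hxS, hbx⟩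
  have hc : (Set.univ : Set W.{v}).Countable :=
    (hS.biUnion (fun x _ => W_Iic_countable x)).mono huniv
  rw [← Cardinal.le_aleph0_iff_set_countable, Cardinal.mk_univ, W_card] at hc
  exact absurd (Cardinal.aleph0_lt_aleph_one) (not_lt.mpr hc)

instance : Nonempty W.{v} := by
  obtain ⟨b, -⟩ := W_bounded.{v} ∅ Set.countable_empty
  exact ⟨b⟩

/-- recursion along `W`. -/
theorem exists_rec {Γ : Type v} (Φ : Set Γ → Set Γ) (B : W.{v} → Set Γ) :
    ∃ M : W.{v} → Set Γ, ∀ w, M w = B w ∪ Φ (⋃ v : Set.Iio w, M v) := by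
  let F : ∀ w : W.{v}, (∀ v : W.{v}, v < w → Set Γ) → Set Γ :=
    fun w ih => B w ∪ Φ (⋃ v : Set.Iio w, ih v.1 v.2)
  refine ⟨(wellFounded_lt (α := W.{v})).fix F, fun w => ?_⟩
  rw [WellFounded.fix_eq]

theorem rec_countable {Γ : Type v} (Φ : Set Γ → Set Γ) (B M : W.{v} → Set Γ)
    (hM : ∀ w, M w = B w ∪ Φ (⋃ v : Set.Iio w, M v))
    (hΦ : ∀ A : Set Γ, A.Countable → (Φ A).Countable) (hB : ∀ w, (B w).Countable) (w : W.{v}) :
    (M w).Countable := by
  induction w using (wellFounded_lt (α := W.{v})).induction with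
  | _ w ih =>
    rw [hM w]
    refine (hB w).union (hΦ _ ?_)
    have : Countable (Set.Iio w) := (W_Iio_countable w).to_subtype
    exact Set.countable_iUnion (fun v => ih v.1 v.2)

theorem rec_mono {Γ : Type v} (Φ : Set Γ → Set Γ) (B M : W.{v} → Set Γ)
    (hM : ∀ w, M w = B w ∪ Φ (⋃ v : Set.Iio w, M v))
    (hΦ : ∀ A : Set Γ, A ⊆ Φ A) {w w' : W.{v}} (h : w ≤ w') : M w ⊆ M w' := by
  rcases h.eq_or_lt with rfl | h
  · exact subset_rfl
  · rw [hM w']
    refine Set.Subset.trans ?_ Set.subset_union_right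
    refine Set.Subset.trans ?_ (hΦ _)
    exact Set.subset_iUnion (fun v : Set.Iio w' => M v) ⟨w, h⟩

/-- Combinatorial core: a chain of countable sets with the coherence needed. -/
theorem chain_core {Γ : Type v} (Φ : Set Γ → Set Γ)
    (hΦc : ∀ A : Set Γ, A.Countable → (Φ A).Countable) (hΦs : ∀ A : Set Γ, A ⊆ Φ A)
    (Gz : Set Γ) (hGz : Cardinal.aleph 1 < #Gz) :
    ∃ (M : ℕ → Set Γ) (g : ℕ → Γ),
      (∀ n, ∀ F : Finset Γ, (F : Set Γ) ⊆ M n → ∃ A : Set Γ, (F : Set Γ) ⊆ A ∧ A ⊆ M n ∧ Φ A ⊆ M n) ∧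
      (∀ n, M n ⊆ M (n + 1)) ∧
      (∀ n, Φ (M n) ∩ M (n + 1) ⊆ M n) ∧
      (∀ n, g n ∈ Gz ∧ g n ∈ M (n + 1) ∧ g n ∉ M n) := by
  classical
  choose R hR using exists_rec (Γ := Γ) Φ
  -- selecting a new element
  have hsel : ∀ N : Set Γ, #N ≤ Cardinal.aleph 1 → ∃ γ, γ ∈ Gz ∧ γ ∉ N := by
    intro N hN
    by_contra hcon
    push Not at hcon
    exact absurd ((Cardinal.mk_le_mk_of_subset (fun γ hγ => hcon γ hγ)).trans hN) (not_le.mpr hGz)
  have hne : Gz.Nonempty := by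
    obtain ⟨γ, h, -⟩ := hsel ∅ (by simp)
    exact ⟨γ, h⟩
  obtain ⟨γdef, -⟩ := hne
  let sel : Set Γ → Γ := fun N => if h : #N ≤ Cardinal.aleph 1 then (hsel N h).choose else γdef
  have hselspec : ∀ N : Set Γ, #N ≤ Cardinal.aleph 1 → sel N ∈ Gz ∧ sel N ∉ N := by
    intro N hN
    simp only [sel, dif_pos hN]
    exact (hsel N hN).choose_spec
  let S : ℕ → (W.{v} → Set Γ) := fun n => Nat.rec (R (fun _ => ∅))
    (fun _ P => R (fun w => P w ∪ {sel (⋃ w, P w)})) n
  have hS0 : S 0 = R (fun _ => ∅) := rfl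
  have hSs : ∀ n, S (n + 1) = R (fun w => S n w ∪ {sel (⋃ w, S n w)}) := fun n => rfl
  -- the seeds
  let B : ℕ → (W.{v} → Set Γ) := fun n => Nat.rec (fun _ => ∅)
    (fun m _ => (fun w => S m w ∪ {sel (⋃ w, S m w)})) n
  have hSB : ∀ n w, S n w = B n w ∪ Φ (⋃ v : Set.Iio w, S n v) := by
    intro n
    cases n with
    | zero => exact fun w => hR _ w
    | succ n => exact fun w => hR _ w
  have hcount : ∀ n w, (S n w).Countable := by
    intro n
    induction n with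
    | zero => exact fun w => rec_countable Φ _ _ (hSB 0) hΦc (fun _ => Set.countable_empty) w
    | succ n ih =>
      exact fun w => rec_countable Φ _ _ (hSB (n+1)) hΦc
        (fun w => (ih w).union (Set.countable_singleton _)) w
  have hmono : ∀ n {w w' : W.{v}}, w ≤ w' → S n w ⊆ S n w' :=
    fun n {w w'} h => rec_mono Φ _ _ (hSB n) hΦs h
  -- total unions
  let N : ℕ → Set Γ := fun n => ⋃ w, S n w
  have hN : ∀ n, #(N n) ≤ Cardinal.aleph 1 := by
    intro n
    refine (Cardinal.mk_iUnion_le_sum_mk).trans ?_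
    refine (Cardinal.sum_le_sum _ (fun _ => Cardinal.aleph0) (fun w => ?_)).trans ?_
    · exact Cardinal.le_aleph0_iff_set_countable.mpr (hcount n w)
    · rw [Cardinal.sum_const', W_card]
      exact (Cardinal.mul_le_max_of_aleph0_le_left (Cardinal.aleph0_le_aleph 1)).trans
        (max_le le_rfl (Cardinal.aleph0_le_aleph 1))
  have hsub : ∀ n w, S n w ⊆ S (n + 1) w := by
    intro n w
    rw [hSB (n + 1) w]
    exact Set.Subset.trans Set.subset_union_left Set.subset_union_left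
  have hg : ∀ n w, sel (N n) ∈ S (n + 1) w := by
    intro n w
    rw [hSB (n + 1) w]
    exact Or.inl (Or.inr rfl)
  -- the bounding function
  have hσ : ∀ w : W.{v}, ∃ w' : W.{v}, w < w' ∧ ∀ n, ∀ γ ∈ S (n + 1) w, γ ∈ N n → γ ∈ S n w' := by
    intro w
    have hch : ∀ n, ∀ γ : Γ, ∃ w₁ : W.{v}, γ ∈ N n → γ ∈ S n w₁ := by
      intro n γ
      by_cases h : γ ∈ N n
      · obtain ⟨w₁, hw₁⟩ := Set.mem_iUnion.mp h
        exact ⟨w₁, fun _ => hw₁⟩
      · exact ⟨w, fun h' => absurd h' h⟩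
    choose ν hν using hch
    let T : Set W.{v} := {w} ∪ ⋃ n, (ν n) '' (S (n + 1) w)
    have hT : T.Countable :=
      (Set.countable_singleton w).union (Set.countable_iUnion (fun n => (hcount (n+1) w).image _))
    obtain ⟨b, hb⟩ := W_bounded T hT
    refine ⟨b, hb w (Or.inl rfl), fun n γ hγ hγN => ?_⟩
    refine hmono n (hb (ν n γ) (Or.inr ?_)).le (hν n γ hγN)
    exact Set.mem_iUnion.mpr ⟨n, Set.mem_image_of_mem _ hγ⟩
  choose σ hσ1 hσ2 using hσ
  obtain ⟨w₀⟩ : Nonempty W.{v} := inferInstance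
  let d : ℕ → W.{v} := fun k => σ^[k] w₀
  have hd : ∀ k, d (k + 1) = σ (d k) := fun k => Function.iterate_succ_apply' σ k w₀
  have hdlt : ∀ k, d k < d (k + 1) := fun k => by rw [hd]; exact hσ1 _
  have hUB : {b : W.{v} | ∀ k, d k < b}.Nonempty := by
    obtain ⟨b, hb⟩ := W_bounded (Set.range d) (Set.countable_range d)
    exact ⟨b, fun k => hb _ ⟨k, rfl⟩⟩
  let δ : W.{v} := (wellFounded_lt (α := W.{v})).min _ hUB
  have hδ : ∀ k, d k < δ := (wellFounded_lt (α := W.{v})).min_mem _ hUB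
  have hδ' : ∀ w, w < δ → ∃ k, w ≤ d k := by
    intro w hw
    by_contra hcon
    push Not at hcon
    exact (wellFounded_lt (α := W.{v})).not_lt_min {b : W.{v} | ∀ k, d k < b} (x := w) hcon hw
  refine ⟨fun n => ⋃ w : Set.Iio δ, S n w, fun n => sel (N n), ?_, ?_, ?_, ?_⟩
  · -- closure under Φ of suitable pieces
    intro n F hF
    have hk : ∃ k, (F : Set Γ) ⊆ S n (d k) := by
      induction F using Finset.induction_on with
      | empty => exact ⟨0, by simp⟩
      | insert a F _ ih =>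
        rw [Finset.coe_insert, Set.insert_subset_iff] at hF
        obtain ⟨k, hk⟩ := ih hF.2
        obtain ⟨⟨w, hw⟩, haw⟩ := Set.mem_iUnion.mp hF.1
        obtain ⟨l, hl⟩ := hδ' w hw
        have hdm : StrictMono d := strictMono_nat_of_lt_succ hdlt
        refine ⟨max k l, ?_⟩
        rw [Finset.coe_insert, Set.insert_subset_iff]
        refine ⟨?_, hk.trans (hmono n (hdm.monotone (le_max_left k l)))⟩
        exact hmono n (hl.trans (hdm.monotone (le_max_right k l))) haw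
    obtain ⟨k, hk⟩ := hk
    refine ⟨⋃ v : Set.Iio (d (k + 1)), S n v, ?_, ?_, ?_⟩
    · exact hk.trans (Set.subset_iUnion (fun v : Set.Iio (d (k+1)) => S n v) ⟨d k, hdlt k⟩)
    · refine Set.iUnion_subset (fun v => ?_)
      exact Set.subset_iUnion (fun v : Set.Iio δ => S n v) ⟨v.1, lt_trans v.2 (hδ _)⟩
    · refine Set.Subset.trans ?_ (Set.subset_iUnion (fun v : Set.Iio δ => S n v) ⟨d (k+1), hδ _⟩)
      show _ ⊆ S n (d (k+1))
      rw [hSB n (d (k + 1))]
      exact Set.subset_union_right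
  · intro n
    exact Set.iUnion_mono (fun w => hsub n w)
  · rintro n γ ⟨hγ1, hγ2⟩
    have hγN : γ ∈ N n := by
      refine Set.mem_iUnion.mpr ⟨δ, ?_⟩
      rw [hSB n δ]
      exact Or.inr hγ1
    obtain ⟨⟨w, hw⟩, hγw⟩ := Set.mem_iUnion.mp hγ2
    obtain ⟨k, hk⟩ := hδ' w hw
    have h1 : γ ∈ S (n + 1) (d k) := hmono (n + 1) hk hγw
    have h2 : γ ∈ S n (σ (d k)) := hσ2 (d k) n γ h1 hγN
    exact Set.mem_iUnion.mpr ⟨⟨σ (d k), by rw [← hd]; exact hδ _⟩, h2⟩
  · intro n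
    obtain ⟨h1, h2⟩ := hselspec (N n) (hN n)
    refine ⟨h1, Set.mem_iUnion.mpr ⟨⟨d 0, hδ 0⟩, hg n _⟩, fun h => h2 ?_⟩
    obtain ⟨w, hw⟩ := Set.mem_iUnion.mp h
    exact Set.mem_iUnion.mpr ⟨w, hw⟩

end Pool.Agent.Lib.Helper86
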