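import Mathlib
import Pool.Agent.Lib.Helper86.ChainCore

set_option autoImplicit false

open Set Cardinal Ordinal Topology

namespace Pool.Agent.Lib.Helper86

universe u v

section topo

variable {X : Type u} {Γ : Type v} [TopologicalSpace X]

/-- rational box condition -/
def Box (e : X → Γ → ℝ) (q : Finset (Γ × ℚ × ℚ)) (x : X) : Prop :=
  ∀ t ∈ q, (t.2.1 : ℝ) < e x t.1 ∧ e x t.1 < (t.2.2 : ℝ)

theorem box_open (e : X → Γ → ℝ) (he : Continuous e) (q : Finset (Γ × ℚ × ℚ)) :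
    IsOpen {x | Box e q x} := by
  have : {x | Box e q x} = ⋂ t ∈ q, {x | (t.2.1 : ℝ) < e x t.1 ∧ e x t.1 < (t.2.2 : ℝ)} := by
    ext x; simp [Box]
  rw [this]
  refine isOpen_biInter_finset (fun t _ => ?_)
  have hc : Continuous (fun x => e x t.1) := (continuous_apply t.1).comp he
  exact (isOpen_lt continuous_const hc).inter (isOpen_lt hc continuous_const)

/-- for every rational box a countable set of coordinates containing the support of a witness. -/
theorem exists_phi (e : X → Γ → ℝ) (he : Continuous e)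
    (hd : Dense {x : X | {γ : Γ | e x γ ≠ 0}.Countable}) :
    ∃ φ : Finset (Γ × ℚ × ℚ) → Set Γ, (∀ q, (φ q).Countable) ∧
      ∀ q x, Box e q x → ∃ y, Box e q y ∧ ∀ γ, e y γ ≠ 0 → γ ∈ φ q := by
  classical
  have h : ∀ q : Finset (Γ × ℚ × ℚ), ∃ S : Set Γ, S.Countable ∧
      ∀ x, Box e q x → ∃ y, Box e q y ∧ ∀ γ, e y γ ≠ 0 → γ ∈ S := by
    intro q
    by_cases hq : ∃ x, Box e q x
    · obtain ⟨y, hy1, hy2⟩ := hd.exists_mem_open (box_open e he q) hq
      exact ⟨_, hy1, fun x _ => ⟨y, hy2, fun γ hγ => hγ⟩⟩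
    · exact ⟨∅, Set.countable_empty, fun x hx => absurd ⟨x, hx⟩ hq⟩
  choose φ h1 h2 using h
  exact ⟨φ, h1, h2⟩

/-- truncation to a closed set of coordinates stays in the compact space. -/
theorem exists_trunc [CompactSpace X] (e : X → Γ → ℝ) (he : Continuous e) (φ : Finset (Γ × ℚ × ℚ) → Set Γ)
    (hφ : ∀ q x, Box e q x → ∃ y, Box e q y ∧ ∀ γ, e y γ ≠ 0 → γ ∈ φ q)
    (S : Set Γ) (hS : ∀ q : Finset (Γ × ℚ × ℚ), (∀ t ∈ q, t.1 ∈ S) → φ q ⊆ S) (x : X) :
    ∃ y, ∀ γ, (γ ∈ S → e y γ = e x γ) ∧ (γ ∉ S → e y γ = 0) := by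
  classical
  have hcl : IsClosed (Set.range e) := (isCompact_range he).isClosed
  have hz : S.indicator (e x) ∈ closure (Set.range e) := by
    rw [mem_closure_iff]
    intro V hV hzV
    obtain ⟨I, u, hu, hI⟩ := isOpen_pi_iff.mp hV _ hzV
    -- choose rational endpoints
    have hr : ∀ i : Γ, ∃ ab : ℚ × ℚ, i ∈ I → ((ab.1 : ℝ) < S.indicator (e x) i ∧
        S.indicator (e x) i < (ab.2 : ℝ) ∧ Set.Ioo (ab.1 : ℝ) (ab.2 : ℝ) ⊆ u i) := by
      intro i
      by_cases hi : i ∈ I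
      · obtain ⟨ε, hε, hball⟩ := Metric.isOpen_iff.mp (hu i hi).1 _ (hu i hi).2
        obtain ⟨a, ha1, ha2⟩ := exists_rat_btwn (show S.indicator (e x) i - ε < S.indicator (e x) i by linarith)
        obtain ⟨b, hb1, hb2⟩ := exists_rat_btwn (show S.indicator (e x) i < S.indicator (e x) i + ε by linarith)
        refine ⟨(a, b), fun _ => ⟨ha2, hb1, fun r hr => hball ?_⟩⟩
        rw [Metric.mem_ball, Real.dist_eq, abs_lt]
        constructor <;> linarith [hr.1, hr.2]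
      · exact ⟨(0, 0), fun h => absurd h hi⟩
    choose ab hab using hr
    let q : Finset (Γ × ℚ × ℚ) := (I.filter (fun i => i ∈ S)).image (fun i => (i, (ab i).1, (ab i).2))
    have hqS : ∀ t ∈ q, t.1 ∈ S := by
      intro t ht
      obtain ⟨i, hi, rfl⟩ := Finset.mem_image.mp ht
      exact (Finset.mem_filter.mp hi).2
    have hbx : Box e q x := by
      intro t ht
      obtain ⟨i, hi, rfl⟩ := Finset.mem_image.mp ht
      obtain ⟨hiI, hiS⟩ := Finset.mem_filter.mp hi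
      have h := hab i hiI
      rw [Set.indicator_of_mem hiS] at h
      exact ⟨h.1, h.2.1⟩
    obtain ⟨y, hy1, hy2⟩ := hφ q x hbx
    refine ⟨e y, hI ?_, ⟨y, rfl⟩⟩
    intro i hi
    by_cases hiS : i ∈ S
    · have hyi := hy1 (i, (ab i).1, (ab i).2)
        (Finset.mem_image.mpr ⟨i, Finset.mem_filter.mpr ⟨hi, hiS⟩, rfl⟩)
      exact (hab i hi).2.2 ⟨hyi.1, hyi.2⟩
    · have h0 : e y i = 0 := by
        by_contra hne
        exact hiS (hS q hqS (hy2 i hne))
      have h1 := (hu i hi).2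
      rw [Set.indicator_of_notMem hiS] at h1
      rw [h0]
      exact h1
  rw [hcl.closure_eq] at hz
  obtain ⟨y, hy⟩ := hz
  refine ⟨y, fun γ => ⟨fun hγ => ?_, fun hγ => ?_⟩⟩
  · rw [hy, Set.indicator_of_mem hγ]
  · rw [hy, Set.indicator_of_notMem hγ]

/-- the neighbourhood `U x` is controlled by finitely many coordinates. -/
theorem exists_fin (e : X → Γ → ℝ) (he : IsInducing e) (U : Set X) (hU : IsOpen U) (x : X)
    (hx : x ∈ U) : ∃ H : Finset Γ, ∀ y, (∀ γ ∈ H, e y γ = e x γ) → y ∈ U := by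
  obtain ⟨V, hV, rfl⟩ := he.isOpen_iff.mp hU
  obtain ⟨I, u, hu, hI⟩ := isOpen_pi_iff.mp hV _ hx
  refine ⟨I, fun y hy => hI ?_⟩
  intro i hi
  rw [hy i hi]
  exact (hu i hi).2

theorem countable_finsets (A : Set Γ) (hA : A.Countable) :
    {q : Finset (Γ × ℚ × ℚ) | ∀ t ∈ q, t.1 ∈ A}.Countable := by
  classical
  have hc : (A ×ˢ (Set.univ : Set (ℚ × ℚ))).Countable := hA.prod Set.countable_univ
  have := Set.countable_ofPred_finite_subset hc
  refine Set.Countable.mono ?_ (this.preimage (f := fun q : Finset (Γ × ℚ × ℚ) => (q : Set _))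
    Finset.coe_injective)
  intro q hq
  exact ⟨q.finite_toSet, fun t ht => ⟨hq t ht, Set.mem_univ _⟩⟩

/-- **Main sequence lemma.** Let `X` be compact, embedded by `e` in `Γ → ℝ`, such that the points
with countable support are dense. Let `p : X`, let `Gz` be a set of more than `ℵ₁` coordinates and
let `U` be a neighbourhood assignment on `X`. Then there is a sequence `x n` with
`x (n+1) ∈ U (x n)`, and coordinates `g n ∈ Gz` at which `x n` vanishes and `x (n+1)` agrees with `p`. -/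
theorem exists_seq [CompactSpace X] (e : X → Γ → ℝ) (he : IsEmbedding e)
    (hd : Dense {x : X | {γ : Γ | e x γ ≠ 0}.Countable}) (p : X) (Gz : Set Γ)
    (hcard : Cardinal.aleph 1 < #Gz) (U : X → Set X) (hU : ∀ x, IsOpen (U x))
    (hxU : ∀ x, x ∈ U x) :
    ∃ (x : ℕ → X) (g : ℕ → Γ), ∀ n, g n ∈ Gz ∧ x (n + 1) ∈ U (x n) ∧ e (x n) (g n) = 0 ∧
      e (x (n + 1)) (g n) = e p (g n) := by
  classical
  obtain ⟨φ, hφc, hφ⟩ := exists_phi e he.continuous hd
  choose H hH using fun x => exists_fin e he.isInducing (U x) (hU x) x (hxU x)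
  let Closed : Set Γ → Prop := fun S => ∀ q : Finset (Γ × ℚ × ℚ), (∀ t ∈ q, t.1 ∈ S) → φ q ⊆ S
  have hT : ∀ S : Set Γ, ∃ y : X, Closed S → ∀ γ, (γ ∈ S → e y γ = e p γ) ∧ (γ ∉ S → e y γ = 0) := by
    intro S
    by_cases hS : Closed S
    · obtain ⟨y, hy⟩ := exists_trunc e he.continuous φ hφ S hS p
      exact ⟨y, fun _ => hy⟩
    · exact ⟨p, fun h => absurd h hS⟩
  choose T hT using hT
  let Φ : Set Γ → Set Γ := fun A => A ∪ (H (T A) : Set Γ) ∪
    ⋃ q ∈ {q : Finset (Γ × ℚ × ℚ) | ∀ t ∈ q, t.1 ∈ A}, φ q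
  have hΦc : ∀ A : Set Γ, A.Countable → (Φ A).Countable := by
    intro A hA
    refine (hA.union (H (T A)).countable_toSet).union ?_
    exact (countable_finsets A hA).biUnion (fun q _ => hφc q)
  have hΦs : ∀ A : Set Γ, A ⊆ Φ A := fun A a ha => Or.inl (Or.inl ha)
  obtain ⟨M, g, hM1, hM2, hM3, hM4⟩ := chain_core Φ hΦc hΦs Gz hcard
  have hcl : ∀ n, Closed (M n) := by
    intro n q hq
    obtain ⟨A, hFA, -, hΦA⟩ := hM1 n (q.image Prod.fst) (by
      intro a ha
      rw [Finset.mem_coe, Finset.mem_image] at ha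
      obtain ⟨t, ht, rfl⟩ := ha
      exact hq t ht)
    refine Set.Subset.trans ?_ hΦA
    refine Set.Subset.trans ?_ Set.subset_union_right
    refine Set.subset_biUnion_of_mem (u := fun q => φ q) (s := {q : Finset (Γ × ℚ × ℚ) | ∀ t ∈ q, t.1 ∈ A}) ?_
    intro t ht
    exact hFA (Finset.mem_coe.mpr (Finset.mem_image_of_mem _ ht))
  have hx := fun n => hT (M n) (hcl n)
  refine ⟨fun n => T (M n), g, fun n => ⟨(hM4 n).1, ?_, ?_, ?_⟩⟩
  · apply hH
    intro γ hγ
    by_cases h : γ ∈ M n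
    · rw [(hx n γ).1 h, (hx (n+1) γ).1 (hM2 n h)]
    · rw [(hx n γ).2 h]
      refine (hx (n+1) γ).2 (fun h' => h (hM3 n ⟨?_, h'⟩))
      exact Or.inl (Or.inr (Finset.mem_coe.mpr hγ))
  · exact (hx n _).2 (hM4 n).2.2
  · exact (hx (n+1) _).1 (hM4 n).2.1

end topo

end Pool.Agent.Lib.Helper86
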